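import Pool.Agent.QUD.StmtsX

/-! Squad QUD, row SGL: sides and perpendiculars are not short. -/

namespace Pool.Agent.QUD.H17

open MeasureTheory Complex Filter Topology ProbabilityTheory Pool.Agent.H16Iso Pool.Agent.H62T
open Pool.Agent.H16F (Sublin)
open Pool.Agent.AEU Pool.Agent.XQ
open Pool.Agent.QUD

theorem unit_sq {a : ℂ} (ha : ‖a‖ = 1) : a.re ^ 2 + a.im ^ 2 = 1 := by
  have h := Complex.sq_norm a
  rw [ha, Complex.normSq_apply] at h
  nlinarith [h]

theorem norm_line {a x : ℂ} (ha : ‖a‖ = 1) (h : ip a x = 0) :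
    x.re = -(dt a x * a.im) ∧ x.im = dt a x * a.re ∧ ‖x‖ = |dt a x| := by
  have h1 := unit_sq ha
  simp only [ip] at h
  have hre : x.re = -(dt a x * a.im) := by
    simp only [dt]
    linear_combination (-x.re) * h1 + a.re * h
  have him : x.im = dt a x * a.re := by
    simp only [dt]
    linear_combination (-x.im) * h1 + a.im * h
  refine ⟨hre, him, ?_⟩
  have h2 : ‖x‖ ^ 2 = (dt a x) ^ 2 := by
    rw [Complex.sq_norm, Complex.normSq_apply]
    rw [show x.re * x.re + x.im * x.im = (-(dt a x * a.im)) ^ 2 + (dt a x * a.re) ^ 2 by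
      rw [← hre, ← him]; ring]
    linear_combination (dt a x) ^ 2 * h1
  rw [← sq_abs (dt a x)] at h2
  exact (pow_left_inj₀ (norm_nonneg x) (abs_nonneg _) two_ne_zero).1 h2

theorem core (hul : HulStatement) (per : PerStatement) (mx : MixStatement) {X : Finset HP}
    {L : ℝ} (hB : Below X L) {z y : ℂ} (hz : z ∈ Cl X) (hy : y ∈ Cl X) {a b c : HP}
    (ha : a ∈ X) (hb : b ∈ X) (hc : c ∈ X) (hab : a ≠ b) (hbc : b ≠ c) (hac : a ≠ c)
    (ta : ip a.1 z = a.2 ∨ ip a.1 y = a.2) (tb : ip b.1 z = b.2 ∨ ip b.1 y = b.2)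
    (tc : ip c.1 z = c.2 ∨ ip c.1 y = c.2) : L ≤ 2 * ‖z - y‖ := by
  by_contra hlt
  rw [not_le] at hlt
  have hcl : ∀ i : Fin 2, (![z, y] : Fin 2 → ℂ) i ∈ Cl X := by
    intro i
    fin_cases i
    · exact hz
    · exact hy
  obtain ⟨hfit, htouch⟩ := (mx X).2.2 1 ![z, y] hcl
  have hsub : Sublin (hf ![z, y]) := (hul 1 ![z, y]).1
  have hlam : lam (hf ![z, y]) < L := by
    rw [per.1 z y]
    exact hlt
  have h2 := (hB _ hsub hfit hlam).1
  have key : ∀ s : HP, s ∈ X → (ip s.1 z = s.2 ∨ ip s.1 y = s.2) →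
      s ∈ touch X (hf ![z, y]) := by
    intro s hs ht
    rw [htouch]
    refine ⟨hs, ?_⟩
    rcases ht with ht | ht
    · exact ⟨0, ht⟩
    · exact ⟨1, ht⟩
  have hss : ({a, b, c} : Finset HP) ⊆ touch X (hf ![z, y]) := by
    intro s hs
    simp only [Finset.mem_insert, Finset.mem_singleton] at hs
    rcases hs with rfl | rfl | rfl
    · exact key _ ha ta
    · exact key _ hb tb
    · exact key _ hc tc
  have h3 : ({a, b, c} : Finset HP).card = 3 := by
    rw [Finset.card_insert_of_notMem, Finset.card_insert_of_notMem, Finset.card_singleton]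
    · simpa using hbc
    · simp only [Finset.mem_insert, Finset.mem_singleton, not_or]
      exact ⟨hab, hac⟩
  have h4 := Finset.card_le_card hss
  omega

theorem third (hul : HulStatement) (per : PerStatement) (mx : MixStatement) {X : Finset HP}
    {L : ℝ} (hP : Pg X) (hB : Below X L) (e f q : HP) (z : ℂ) (hv : VxOf X e f z)
    (hq : q ∈ X) (hqe : q ≠ e) (hqf : q ≠ f)
    (hin : z + ((q.2 - ip q.1 z : ℝ) : ℂ) * q.1 ∈ Cl X) : L ≤ 2 * (q.2 - ip q.1 z) := by
  have hD : 0 ≤ q.2 - ip q.1 z := sub_nonneg.2 (hv.cl q hq)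
  have hu := unit_sq (hP.unit q hq)
  have hon : ip q.1 (z + ((q.2 - ip q.1 z : ℝ) : ℂ) * q.1) = q.2 := by
    have : ip q.1 (z + ((q.2 - ip q.1 z : ℝ) : ℂ) * q.1)
        = ip q.1 z + (q.2 - ip q.1 z) * (q.1.re ^ 2 + q.1.im ^ 2) := by
      generalize q.2 - ip q.1 z = D
      simp only [ip, Complex.add_re, Complex.add_im, Complex.re_ofReal_mul,
        Complex.im_ofReal_mul]
      ring
    rw [this, hu]
    ring
  have hn : ‖z - (z + ((q.2 - ip q.1 z : ℝ) : ℂ) * q.1)‖ = q.2 - ip q.1 z := by
    rw [sub_add_cancel_left, norm_neg, norm_mul, hP.unit q hq, mul_one, Complex.norm_real,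
      Real.norm_eq_abs, abs_of_nonneg hD]
  have h := core hul per mx hB hv.cl hin hv.mem₁ hv.mem₂ hq hv.ne (Ne.symm hqf) (Ne.symm hqe)
    (Or.inl hv.on₁) (Or.inl hv.on₂) (Or.inr hon)
  rw [hn] at h
  exact h

theorem sgl (vxx : VxxStatement) (hul : HulStatement) (per : PerStatement)
    (mx : MixStatement) : SglStmt := by
  intro X L hP hB
  refine ⟨?_, ?_, ?_⟩
  · intro s e t z y hz hy hst
    exact core hul per mx hB hz.cl hy.cl hz.mem₁ hz.mem₂ hy.mem₂ hz.ne hy.ne hst
      (Or.inl hz.on₁) (Or.inl hz.on₂) (Or.inr hy.on₂)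
  · intro e f s t z y y' hz hy hsf hy' hte hyz hy'z hip hle
    have hue := unit_sq (hP.unit e hz.mem₁)
    have huf := unit_sq (hP.unit f hz.mem₂)
    have h1 : ip e.1 (z - y) = 0 := by
      have a1 := hz.on₁
      have a2 := hy.on₁
      simp only [ip, Complex.sub_re, Complex.sub_im] at a1 a2 ⊢
      linarith
    have h2 : ip f.1 (y' - z) = 0 := by
      have a1 := hz.on₂
      have a2 := hy'.on₁
      simp only [ip, Complex.sub_re, Complex.sub_im] at a1 a2 ⊢
      linarith
    obtain ⟨c1, c2, c3⟩ := norm_line (hP.unit e hz.mem₁) h1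
    obtain ⟨b1, b2, b3⟩ := norm_line (hP.unit f hz.mem₂) h2
    set c := dt e.1 (z - y) with hc
    set b := dt f.1 (y' - z) with hb
    have hyf : ip f.1 y < f.2 := (vxx X hP).2.1 e s y hy f hz.mem₂ (Ne.symm hz.ne)
      (Ne.symm hsf)
    have hye : ip e.1 y' < e.2 := (vxx X hP).2.1 f t y' hy' e hz.mem₁ hz.ne (Ne.symm hte)
    have hD : f.2 - ip f.1 y = c * dt e.1 f.1 := by
      have a1 := hz.on₂
      have : f.2 - ip f.1 y = f.1.re * (z - y).re + f.1.im * (z - y).im := by
        rw [← a1]
        simp only [ip, Complex.sub_re, Complex.sub_im]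
        ring
      rw [this, c1, c2]
      simp only [dt]
      ring
    have hE : ip e.1 y' - e.2 = -(b * dt e.1 f.1) := by
      have a1 := hz.on₁
      have : ip e.1 y' - e.2 = e.1.re * (y' - z).re + e.1.im * (y' - z).im := by
        rw [← a1]
        simp only [ip, Complex.sub_re, Complex.sub_im]
        ring
      rw [this, b1, b2]
      simp only [dt]
      ring
    have p1 : 0 < c * dt e.1 f.1 := by linarith
    have p2 : 0 < b * dt e.1 f.1 := by linarith
    have hb0 : b ≠ 0 := by
      rintro h0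
      rw [h0, zero_mul] at p2
      exact lt_irrefl _ p2
    have hcb : 0 < c * b := by
      have h3 := mul_pos p1 p2
      have h4 : c * dt e.1 f.1 * (b * dt e.1 f.1) = (c * b) * (dt e.1 f.1) ^ 2 := by ring
      rw [h4] at h3
      by_contra hneg
      rw [not_lt] at hneg
      exact absurd h3 (not_lt.2 (mul_nonpos_of_nonpos_of_nonneg hneg (sq_nonneg _)))
    have hcbabs : |c| ≤ |b| := by
      rw [← c3, ← b3, norm_sub_rev y' z]
      exact hle
    have hipge : -1 ≤ ip e.1 f.1 := by
      simp only [ip]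
      nlinarith [sq_nonneg (e.1.re + f.1.re), sq_nonneg (e.1.im + f.1.im)]
    have hb2 : 0 < b ^ 2 := by positivity
    set θ : ℝ := -(c * ip e.1 f.1) / b with hθ
    have hθb : θ * b = -(c * ip e.1 f.1) := by
      rw [hθ]
      field_simp
    have hθb2 : θ * b ^ 2 = -(ip e.1 f.1) * (c * b) := by
      rw [pow_two, ← mul_assoc, hθb]
      ring
    have hθ0 : 0 ≤ θ := by
      have : 0 ≤ θ * b ^ 2 := by
        rw [hθb2]
        exact mul_nonneg (by linarith) hcb.le
      by_contra hneg
      rw [not_le] at hneg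
      exact absurd this (not_le.2 (mul_neg_of_neg_of_pos hneg hb2))
    have hθ1 : θ ≤ 1 := by
      have h5 : c * b ≤ b ^ 2 := by
        have h6 : c * b ≤ |c| * |b| := by
          rw [← abs_mul]
          exact le_abs_self _
        have h7 : |c| * |b| ≤ |b| * |b| := mul_le_mul_of_nonneg_right hcbabs (abs_nonneg _)
        rw [abs_mul_abs_self] at h7
        nlinarith
      have : θ * b ^ 2 ≤ 1 * b ^ 2 := by
        rw [hθb2]
        nlinarith
      exact le_of_mul_le_mul_right this hb2
    have hfoot : y + ((f.2 - ip f.1 y : ℝ) : ℂ) * f.1 = z + (θ : ℂ) * (y' - z) := by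
      rw [hD]
      apply Complex.ext
      · have a1 : (y + ((c * dt e.1 f.1 : ℝ) : ℂ) * f.1).re
            = y.re + (c * dt e.1 f.1) * f.1.re := by
          rw [Complex.add_re, Complex.re_ofReal_mul]
        have a2 : (z + (θ : ℂ) * (y' - z)).re = z.re + θ * (y' - z).re := by
          rw [Complex.add_re, Complex.re_ofReal_mul]
        rw [a1, a2, b1]
        have a3 : y.re = z.re + c * e.1.im := by
          rw [Complex.sub_re] at c1
          linarith
        rw [a3]
        have a4 : θ * -(b * f.1.im) = -(θ * b) * f.1.im := by ring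
        rw [a4, hθb]
        simp only [ip, dt]
        linear_combination (-(c * e.1.im)) * huf
      · have a1 : (y + ((c * dt e.1 f.1 : ℝ) : ℂ) * f.1).im
            = y.im + (c * dt e.1 f.1) * f.1.im := by
          rw [Complex.add_im, Complex.im_ofReal_mul]
        have a2 : (z + (θ : ℂ) * (y' - z)).im = z.im + θ * (y' - z).im := by
          rw [Complex.add_im, Complex.im_ofReal_mul]
        rw [a1, a2, b2]
        have a3 : y.im = z.im - c * e.1.re := by
          rw [Complex.sub_im] at c2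
          linarith
        rw [a3]
        have a4 : θ * (b * f.1.re) = (θ * b) * f.1.re := by ring
        rw [a4, hθb]
        simp only [ip, dt]
        linear_combination (c * e.1.re) * huf
    have hmem : y + ((f.2 - ip f.1 y : ℝ) : ℂ) * f.1 ∈ Cl X := by
      rw [hfoot]
      intro r hr
      have a1 := hz.cl r hr
      have a2 := hy'.cl r hr
      have a3 : ip r.1 (z + (θ : ℂ) * (y' - z)) = (1 - θ) * ip r.1 z + θ * ip r.1 y' := by
        simp only [ip, Complex.add_re, Complex.add_im, Complex.re_ofReal_mul,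
          Complex.im_ofReal_mul, Complex.sub_re, Complex.sub_im]
        ring
      rw [a3]
      nlinarith [mul_le_mul_of_nonneg_left a1 (sub_nonneg.2 hθ1),
        mul_le_mul_of_nonneg_left a2 hθ0]
    have h8 := third hul per mx hP hB e s f y hy hz.mem₂ (Ne.symm hz.ne) (Ne.symm hsf) hmem
    rw [hD] at h8
    have h9 : c * dt e.1 f.1 = ‖z - y‖ * |dt e.1 f.1| := by
      rw [c3, ← abs_mul, abs_of_pos p1]
    rw [h9] at h8
    exact h8
  · intro e f q z hv hq hqe hqf hin
    exact third hul per mx hP hB e f q z hv hq hqe hqf hin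

end Pool.Agent.QUD.H17
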